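import Mathlib

/-!
# The volume conjecture for Kauffman bracket intertwiners at non-generic puncture weights

`S` is the once-punctured torus, `π₁(S)` the free group on `a, b`, `H₁(S) = ℤ²`. The nonperipheral simple closed
curves of `S` correspond to the primitive vectors of `ℤ²` up to sign and, as oriented curves up to isotopy, to the
images of `a` under the automorphisms of `π₁(S)`.

* `Skein t`: the Kauffman bracket skein algebra of `S`, `t = q^{1/2}` (or `t = q^{-1/2}`, the other convention for the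
  crossing / the orientation), by the presentation of Bullock and Przytycki: generators `X v`, `v` primitive,
  `X (-v) = X v` and `X v X w = t X (v+w) + t⁻¹ X (v-w)` if `det (v,w) = 1`.
* `P t`: the loop around the puncture.
* `act A`: the automorphism `φ_♯` of the skein algebra of a diffeomorphism acting on `H₁(S)` by `A ∈ SL(2,ℤ)`.
* `TraceValue γ θ A n x`: `x = |Tr Λ|` for some irreducible finite dimensional representation `ρ` of the skein algebra
  with classical shadow `[γ]` and puncture weight `e^{θ/n} + e^{-θ/n}` and some intertwiner `Λ` between `ρ` and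
  `ρ ∘ φ_♯` with `|det Λ| = 1`.
-/

set_option autoImplicit false

namespace Pool.Agent.Results.MP_372ad9_gt.DegenerateWeights

open Complex Filter Topology Matrix

/-- The primitive vectors of `ℤ²`. -/
abbrev Prim : Type := {v : ℤ × ℤ // IsCoprime v.1 v.2}

/-- The determinant (algebraic intersection number) of two primitive vectors. -/
def det2 (v w : Prim) : ℤ := v.1.1 * w.1.2 - v.1.2 * w.1.1

/-- The relations of the skein algebra of the once-punctured torus. -/
inductive Rel (t : ℂ) : FreeAlgebra ℂ Prim → FreeAlgebra ℂ Prim → Prop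
  | neg (v w : Prim) (h : w.1 = -v.1) : Rel t (FreeAlgebra.ι ℂ v) (FreeAlgebra.ι ℂ w)
  | mul (v w u u' : Prim) (h : det2 v w = 1) (hu : u.1 = v.1 + w.1) (hu' : u'.1 = v.1 - w.1) :
      Rel t (FreeAlgebra.ι ℂ v * FreeAlgebra.ι ℂ w) (t • FreeAlgebra.ι ℂ u + t⁻¹ • FreeAlgebra.ι ℂ u')

/-- The Kauffman bracket skein algebra of the once-punctured torus (Bullock–Przytycki), `t = q^{1/2}`. -/
abbrev Skein (t : ℂ) : Type := RingQuot (Rel t)

/-- The element of the skein algebra given by the simple closed curve of class `v`. -/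
noncomputable def X (t : ℂ) (v : Prim) : Skein t := RingQuot.mkAlgHom ℂ (Rel t) (FreeAlgebra.ι ℂ v)

/-- The classes `(1,0)`, `(0,1)`, `(1,1)`. -/
def e10 : Prim := ⟨(1, 0), isCoprime_one_left⟩
def e01 : Prim := ⟨(0, 1), isCoprime_one_right⟩
def e11 : Prim := ⟨(1, 1), isCoprime_one_left⟩

/-- The loop around the puncture,
`P = t X₁₀ X₀₁ X₁₁ - t² X₁₀² - t⁻² X₀₁² - t² X₁₁² + t² + t⁻²`. -/
noncomputable def P (t : ℂ) : Skein t :=
  t • (X t e10 * X t e01 * X t e11) - (t ^ 2) • (X t e10) ^ 2 - (t⁻¹ ^ 2) • (X t e01) ^ 2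
    - (t ^ 2) • (X t e11) ^ 2 + (t ^ 2 + t⁻¹ ^ 2) • (1 : Skein t)

theorem move_coprime (A : SpecialLinearGroup (Fin 2) ℤ) (v : Prim) :
    IsCoprime (A 0 0 * v.1.1 + A 0 1 * v.1.2) (A 1 0 * v.1.1 + A 1 1 * v.1.2) := by
  obtain ⟨r, s, h⟩ := v.2
  have hd : A 0 0 * A 1 1 - A 0 1 * A 1 0 = 1 := by
    have := A.det_coe
    rwa [Matrix.det_fin_two] at this
  refine ⟨r * A 1 1 - s * A 1 0, -(r * A 0 1) + s * A 0 0, ?_⟩
  linear_combination (r * v.1.1 + s * v.1.2) * hd + h

/-- The action of `SL(2,ℤ)` on primitive vectors. -/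
def move (A : SpecialLinearGroup (Fin 2) ℤ) (v : Prim) : Prim :=
  ⟨(A 0 0 * v.1.1 + A 0 1 * v.1.2, A 1 0 * v.1.1 + A 1 1 * v.1.2), move_coprime A v⟩

theorem det2_move (A : SpecialLinearGroup (Fin 2) ℤ) (v w : Prim) :
    det2 (move A v) (move A w) = det2 v w := by
  have hd : A 0 0 * A 1 1 - A 0 1 * A 1 0 = 1 := by
    have := A.det_coe
    rwa [Matrix.det_fin_two] at this
  simp only [det2, move]
  linear_combination (v.1.1 * w.1.2 - v.1.2 * w.1.1) * hd

theorem act_aux (t : ℂ) (A : SpecialLinearGroup (Fin 2) ℤ) ⦃x y : FreeAlgebra ℂ Prim⦄ (h : Rel t x y) :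
    FreeAlgebra.lift ℂ (fun v => X t (move A v)) x = FreeAlgebra.lift ℂ (fun v => X t (move A v)) y := by
  cases h with
  | neg v w h =>
    simp only [FreeAlgebra.lift_ι_apply, X]
    refine RingQuot.mkAlgHom_rel ℂ (Rel.neg _ _ ?_)
    simp only [move, h, Prod.fst_neg, Prod.snd_neg]
    ext <;> simp <;> ring
  | mul v w u u' h hu hu' =>
    simp only [map_mul, map_add, map_smul, FreeAlgebra.lift_ι_apply, X]
    rw [← map_mul, ← map_smul, ← map_smul, ← map_add]
    refine RingQuot.mkAlgHom_rel ℂ (Rel.mul _ _ _ _ ((det2_move A v w).trans h) ?_ ?_)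
    · simp only [move, hu, Prod.fst_add, Prod.snd_add]
      ext <;> simp <;> ring
    · simp only [move, hu', Prod.fst_sub, Prod.snd_sub]
      ext <;> simp <;> ring

/-- The automorphism `φ_♯` of the skein algebra induced by a diffeomorphism with action `A` on `H₁(S)`. -/
noncomputable def act (t : ℂ) (A : SpecialLinearGroup (Fin 2) ℤ) : Skein t →ₐ[ℂ] Skein t :=
  RingQuot.liftAlgHom ℂ ⟨FreeAlgebra.lift ℂ (fun v => X t (move A v)), act_aux t A⟩

/-- The fundamental group of the once-punctured torus. -/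
abbrev F : Type := FreeGroup (Fin 2)

/-- The class in `H₁(S) = ℤ²`. -/
def cls (w : F) : ℤ × ℤ :=
  (FreeGroup.lift (fun i : Fin 2 => Multiplicative.ofAdd (if i = 0 then ((1, 0) : ℤ × ℤ) else (0, 1))) w).toAdd

/-- `q_n^{1/2} = e^{π i / n}`. -/
noncomputable def s (n : ℕ) : ℂ := cexp (Real.pi * I / n)

/-- `ρ` has classical shadow `[γ]`: `T_n([K])` acts by `- Tr γ(K)` for every simple closed curve `K`
(`K = ψ(a)` for an automorphism `ψ` of `π₁(S)`). `Polynomial.Chebyshev.C` is the Chebyshev polynomial with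
`T_n(z + z⁻¹) = z^n + z^{-n}`. -/
def HasShadow {V : Type} [AddCommGroup V] [Module ℂ V] (n : ℕ) (t : ℂ) (ρ : Skein t →ₐ[ℂ] Module.End ℂ V)
    (γ : F →* SpecialLinearGroup (Fin 2) ℂ) : Prop :=
  ∀ (ψ : F ≃* F) (v : Prim), cls (ψ (FreeGroup.of 0)) = v.1 →
    Polynomial.aeval (ρ (X t v)) (Polynomial.Chebyshev.C ℂ (n : ℤ)) =
      (-(γ (ψ (FreeGroup.of 0)) : Matrix (Fin 2) (Fin 2) ℂ).trace) • (1 : Module.End ℂ V)

/-- Irreducible representations. -/
def IsIrred {V : Type} [AddCommGroup V] [Module ℂ V] {t : ℂ} (ρ : Skein t →ₐ[ℂ] Module.End ℂ V) : Prop :=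
  Nontrivial V ∧ ∀ W : Submodule ℂ V, (∀ x, ∀ v ∈ W, ρ x v ∈ W) → W = ⊥ ∨ W = ⊤

/-- `x = |Tr Λ|` for an irreducible representation `ρ` with shadow `[γ]` and puncture weight `e^{θ/n} + e^{-θ/n}`
and an intertwiner `Λ`, `ρ(φ_♯ X) = Λ ρ(X) Λ⁻¹`, with `|det Λ| = 1`; here `t = q_n^{1/2}` or `t = q_n^{-1/2}`. -/
def TraceValue (γ : F →* SpecialLinearGroup (Fin 2) ℂ) (θ : ℂ) (A : SpecialLinearGroup (Fin 2) ℤ) (n : ℕ) (t : ℂ)
    (x : ℝ) : Prop :=
  ∃ (V : Type) (_ : AddCommGroup V) (_ : Module ℂ V) (_ : FiniteDimensional ℂ V)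
    (ρ : Skein t →ₐ[ℂ] Module.End ℂ V) (Λ : V ≃ₗ[ℂ] V),
    IsIrred ρ ∧ HasShadow n t ρ γ ∧
    ρ (P t) = (cexp (θ / n) + cexp (-(θ / n))) • (1 : Module.End ℂ V) ∧
    (∀ y v, ρ (act t A y) (Λ v) = Λ (ρ y v)) ∧
    ‖LinearMap.det (Λ : V →ₗ[ℂ] V)‖ = 1 ∧ x = ‖LinearMap.trace ℂ V (Λ : V →ₗ[ℂ] V)‖

/-- The assertion of the conjecture for `(γ, θ, φ)` with the number `L = vol(M_φ)/4π`: for all choices of the
irreducible representations and intertwiners, `(1/n) log |Tr Λ| → L` along the odd `n`. -/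
def Conjecture (γ : F →* SpecialLinearGroup (Fin 2) ℂ) (θ : ℂ) (A : SpecialLinearGroup (Fin 2) ℤ) (L : ℝ) : Prop :=
  (∀ x : ℕ → ℝ, (∀ n, Odd n → TraceValue γ θ A n (s n) (x n)) →
    Tendsto (fun n : ℕ => Real.log (x n) / n) (atTop ⊓ 𝓟 {n | Odd n}) (𝓝 L)) ∨
  (∀ x : ℕ → ℝ, (∀ n, Odd n → TraceValue γ θ A n (s n)⁻¹ (x n)) →
    Tendsto (fun n : ℕ => Real.log (x n) / n) (atTop ⊓ 𝓟 {n | Odd n}) (𝓝 L))

/-- The quaternion character: `a ↦ diag(i,-i)`, `b ↦ (0,-1;1,0)`. -/
noncomputable def MA : SpecialLinearGroup (Fin 2) ℂ := ⟨!![I, 0; 0, -I], by simp [Matrix.det_fin_two]⟩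
noncomputable def MB : SpecialLinearGroup (Fin 2) ℂ := ⟨!![0, -1; 1, 0], by simp [Matrix.det_fin_two]⟩

noncomputable def quat : F →* SpecialLinearGroup (Fin 2) ℂ := FreeGroup.lift ![MA, MB]

theorem quat_a : quat (FreeGroup.of 0) = MA := by simp [quat]
theorem quat_b : quat (FreeGroup.of 1) = MB := by simp [quat]

theorem cls_mul (u w : F) : cls (u * w) = cls u + cls w := by simp [cls]
theorem cls_inv (u : F) : cls u⁻¹ = -cls u := by simp [cls]
theorem cls_one : cls (1 : F) = 0 := by simp [cls]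
theorem cls_a : cls (FreeGroup.of 0) = (1, 0) := by simp [cls]
theorem cls_b : cls (FreeGroup.of 1) = (0, 1) := by simp [cls]

/-- Determinant of two vectors. -/
def dd (v w : ℤ × ℤ) : ℤ := v.1 * w.2 - v.2 * w.1

def Cm (u w : F) : Prop := quat u * quat w = (-1) ^ (dd (cls u) (cls w)) * (quat w * quat u)

theorem neg_one_comm (M : SpecialLinearGroup (Fin 2) ℂ) (k : ℤ) : (-1) ^ k * M = M * (-1) ^ k := by
  have h : Commute (-1 : SpecialLinearGroup (Fin 2) ℂ) M := by
    show (-1 : SpecialLinearGroup (Fin 2) ℂ) * M = M * (-1)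
    simp
  exact (h.zpow_left k).eq

theorem Cm.mul {u₁ u₂ w : F} (h₁ : Cm u₁ w) (h₂ : Cm u₂ w) : Cm (u₁ * u₂) w := by
  unfold Cm at *
  have e : dd (cls (u₁ * u₂)) (cls w) = dd (cls u₁) (cls w) + dd (cls u₂) (cls w) := by
    simp only [cls_mul, dd, Prod.fst_add, Prod.snd_add]; ring
  rw [e, _root_.zpow_add, map_mul, mul_assoc, h₂, ← mul_assoc, ← neg_one_comm, mul_assoc, ← mul_assoc (quat u₁), h₁]
  simp only [mul_assoc]
  rw [← mul_assoc, neg_one_comm, mul_assoc]

theorem Cm.symm {u w : F} (h : Cm u w) : Cm w u := by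
  unfold Cm at *
  have e : dd (cls w) (cls u) = -dd (cls u) (cls w) := by simp only [dd]; ring
  rw [e, h, _root_.zpow_neg, inv_mul_cancel_left]

theorem Cm.inv {u w : F} (h : Cm u w) : Cm u⁻¹ w := by
  unfold Cm at *
  have e : dd (cls u⁻¹) (cls w) = -dd (cls u) (cls w) := by
    simp only [cls_inv, dd, Prod.fst_neg, Prod.snd_neg]; ring
  rw [e, map_inv, _root_.zpow_neg]
  have h2 : quat w * (quat u)⁻¹ = (-1) ^ (dd (cls u) (cls w)) * ((quat u)⁻¹ * quat w) := by
    have := congrArg (fun M => (quat u)⁻¹ * M * (quat u)⁻¹) h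
    simp only [← mul_assoc, inv_mul_cancel, one_mul] at this
    rw [this, ← neg_one_comm]
    group
  rw [h2, inv_mul_cancel_left]

theorem Cm.one (w : F) : Cm 1 w := by simp [Cm, cls_one, dd]

theorem MBA : (MB : Matrix (Fin 2) (Fin 2) ℂ) * MA = -(MA * MB : Matrix (Fin 2) (Fin 2) ℂ) := by
  ext i j; fin_cases i <;> fin_cases j <;> simp [MA, MB, Matrix.mul_apply]

theorem Cm.gen (i j : Fin 2) : Cm (FreeGroup.of i) (FreeGroup.of j) := by
  have h01 : Cm (FreeGroup.of 0) (FreeGroup.of 1) := by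
    unfold Cm
    rw [cls_a, cls_b, quat_a, quat_b]
    have h1 : dd (1, 0) (0, 1) = 1 := by simp [dd]
    rw [h1, zpow_one]
    apply Subtype.ext
    show MA.1 * MB.1 = (-1) * (MB.1 * MA.1)
    rw [show MB.1 * MA.1 = -(MA.1 * MB.1) from MBA]
    simp
  have hd (i : Fin 2) : Cm (FreeGroup.of i) (FreeGroup.of i) := by
    unfold Cm
    have : dd (cls (FreeGroup.of i)) (cls (FreeGroup.of i)) = 0 := by simp only [dd]; ring
    rw [this]; simp
  fin_cases i <;> fin_cases j
  · exact hd 0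
  · exact h01
  · exact h01.symm
  · exact hd 1

theorem Cm.gen_right (u : F) (j : Fin 2) : Cm u (FreeGroup.of j) := by
  induction u using FreeGroup.induction_on with
  | C1 => exact Cm.one _
  | of i => exact Cm.gen i j
  | inv_of i _ => exact (Cm.gen i j).inv
  | mul x y hx hy => exact hx.mul hy

theorem Cm.all (u w : F) : Cm u w := by
  refine Cm.symm ?_
  induction w using FreeGroup.induction_on with
  | C1 => exact Cm.one _
  | of i => exact (Cm.gen_right u i).symm
  | inv_of i _ => exact (Cm.gen_right u i).symm.inv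
  | mul x y hx hy => exact hx.mul hy

theorem cls_apply (φ : F →* F) (w : F) :
    cls (φ w) = (cls w).1 • cls (φ (FreeGroup.of 0)) + (cls w).2 • cls (φ (FreeGroup.of 1)) := by
  induction w using FreeGroup.induction_on with
  | C1 => simp [cls_one]
  | of i => fin_cases i <;> simp [cls_a, cls_b]
  | inv_of i _ => fin_cases i <;> simp [cls_inv, cls_a, cls_b]
  | mul x y hx hy =>
    rw [map_mul, cls_mul, hx, hy, cls_mul, Prod.fst_add, Prod.snd_add, add_smul, add_smul]
    abel

theorem dd_odd (φ : F ≃* F) :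
    (-1 : SpecialLinearGroup (Fin 2) ℂ) ^ (dd (cls (φ (FreeGroup.of 0))) (cls (φ (FreeGroup.of 1)))) = -1 := by
  obtain ⟨x, hx⟩ := φ.surjective (FreeGroup.of 0)
  obtain ⟨y, hy⟩ := φ.surjective (FreeGroup.of 1)
  have h1 := cls_apply φ.toMonoidHom x
  have h2 := cls_apply φ.toMonoidHom y
  simp only [MulEquiv.toMonoidHom_eq_coe, MonoidHom.coe_coe, hx, hy, cls_a, cls_b] at h1 h2
  set u := cls (φ (FreeGroup.of 0))
  set v := cls (φ (FreeGroup.of 1))
  have a1 := congrArg Prod.fst h1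
  have a2 := congrArg Prod.snd h1
  have b1 := congrArg Prod.fst h2
  have b2 := congrArg Prod.snd h2
  simp only [Prod.fst_add, Prod.snd_add, Prod.smul_fst, Prod.smul_snd, smul_eq_mul] at a1 a2 b1 b2
  have h : dd u v * dd (cls x) (cls y) = 1 := by
    simp only [dd]
    have : (1 : ℤ) = ((cls x).1 * u.1 + (cls x).2 * v.1) * ((cls y).1 * u.2 + (cls y).2 * v.2)
        - ((cls x).1 * u.2 + (cls x).2 * v.2) * ((cls y).1 * u.1 + (cls y).2 * v.1) := by
      rw [← a1, ← a2, ← b1, ← b2]; norm_num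
    rw [this]; ring
  rcases Int.isUnit_iff.1 (IsUnit.of_mul_eq_one _ h) with h | h <;> rw [h] <;> simp

/-- Two anticommuting matrices of square `-1` are simultaneously conjugate to `MA`, `MB`. -/
theorem conj_exists (a b : Matrix (Fin 2) (Fin 2) ℂ) (ha : a * a = -1) (hb : b * b = -1) (hab : a * b = -(b * a)) :
    ∃ g : Matrix (Fin 2) (Fin 2) ℂ, IsUnit g.det ∧ g * (MA : Matrix (Fin 2) (Fin 2) ℂ) = a * g ∧
      g * (MB : Matrix (Fin 2) (Fin 2) ℂ) = b * g := by
  -- an eigenvector of `a`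
  have hne : a + I • (1 : Matrix (Fin 2) (Fin 2) ℂ) ≠ 0 := by
    intro h
    have h1 : a = -(I • (1 : Matrix (Fin 2) (Fin 2) ℂ)) := eq_neg_of_add_eq_zero_left h
    rw [h1] at hab
    simp only [neg_mul, mul_neg, smul_mul_assoc, mul_smul_comm, one_mul, mul_one, neg_neg] at hab
    have h2 : b = 0 := by
      have h3 : (2 * I) • b = 0 := by
        rw [mul_smul, two_smul]
        nth_rewrite 1 [← neg_neg (I • b)]
        rw [hab]; simp
      exact (smul_eq_zero.1 h3).resolve_left (by simp)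
    rw [h2] at hb
    have := congrFun (congrFun hb 0) 0
    simp at this
  obtain ⟨v, hv⟩ : ∃ v : Fin 2 → ℂ, (a + I • (1 : Matrix (Fin 2) (Fin 2) ℂ)) *ᵥ v ≠ 0 := by
    by_contra h
    push Not at h
    exact hne (Matrix.mulVec_injective (funext fun v => by rw [h v]; simp))
  set e := (a + I • (1 : Matrix (Fin 2) (Fin 2) ℂ)) *ᵥ v with he
  have hae : a *ᵥ e = I • e := by
    rw [he, Matrix.mulVec_mulVec, ← Matrix.smul_mulVec]
    congr 1
    rw [mul_add, ha, smul_add, smul_smul, I_mul_I]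
    simp [add_comm]
  have habe : a *ᵥ (b *ᵥ e) = -(I • (b *ᵥ e)) := by
    rw [Matrix.mulVec_mulVec, hab, Matrix.neg_mulVec, ← Matrix.mulVec_mulVec, hae, Matrix.mulVec_smul]
  have hbbe : b *ᵥ (b *ᵥ e) = -e := by
    rw [Matrix.mulVec_mulVec, hb, Matrix.neg_mulVec, Matrix.one_mulVec]
  set f := b *ᵥ e with hf
  let g : Matrix (Fin 2) (Fin 2) ℂ := !![e 0, f 0; e 1, f 1]
  have hgA : g * (MA : Matrix (Fin 2) (Fin 2) ℂ) = a * g := by
    have h0 := congrFun hae 0
    have h1 := congrFun hae 1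
    have h2 := congrFun habe 0
    have h3 := congrFun habe 1
    simp only [Matrix.mulVec, dotProduct, Fin.sum_univ_two, Pi.smul_apply, Pi.neg_apply, smul_eq_mul] at h0 h1 h2 h3
    ext i j
    fin_cases i <;> fin_cases j
    · simp [g, MA, Matrix.mul_apply, Fin.sum_univ_two]
      linear_combination -h0
    · simp [g, MA, Matrix.mul_apply, Fin.sum_univ_two]
      linear_combination -h2
    · simp [g, MA, Matrix.mul_apply, Fin.sum_univ_two]
      linear_combination -h1
    · simp [g, MA, Matrix.mul_apply, Fin.sum_univ_two]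
      linear_combination -h3
  have hgB : g * (MB : Matrix (Fin 2) (Fin 2) ℂ) = b * g := by
    have h0 := congrFun hf 0
    have h1 := congrFun hf 1
    have h2 := congrFun hbbe 0
    have h3 := congrFun hbbe 1
    simp only [Matrix.mulVec, dotProduct, Fin.sum_univ_two, Pi.neg_apply] at h0 h1 h2 h3
    ext i j
    fin_cases i <;> fin_cases j <;>
      simp [g, MB, Matrix.mul_apply, Fin.sum_univ_two, ← h0, ← h1, h2, h3]
  refine ⟨g, ?_, hgA, hgB⟩
  rw [isUnit_iff_ne_zero]
  intro hdet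
  obtain ⟨c, hc, hgc⟩ := Matrix.exists_mulVec_eq_zero_iff.2 hdet
  have k1 : g *ᵥ ((MA : Matrix (Fin 2) (Fin 2) ℂ) *ᵥ c) = 0 := by
    rw [Matrix.mulVec_mulVec, hgA, ← Matrix.mulVec_mulVec, hgc, Matrix.mulVec_zero]
  have k2 : g *ᵥ ((MB : Matrix (Fin 2) (Fin 2) ℂ) *ᵥ c) = 0 := by
    rw [Matrix.mulVec_mulVec, hgB, ← Matrix.mulVec_mulVec, hgc, Matrix.mulVec_zero]
  have k3 : g *ᵥ ((MA : Matrix (Fin 2) (Fin 2) ℂ) *ᵥ ((MB : Matrix (Fin 2) (Fin 2) ℂ) *ᵥ c)) = 0 := by
    rw [Matrix.mulVec_mulVec, hgA, ← Matrix.mulVec_mulVec, k2, Matrix.mulVec_zero]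
  have q0 := congrFun hgc
  have q1 := congrFun k1
  have q2 := congrFun k2
  have q3 := congrFun k3
  have E : ∀ i, g i 0 * c 0 = 0 ∧ g i 0 * c 1 = 0 := by
    intro i
    have a0 := q0 i
    have a1 := q1 i
    have a2 := q2 i
    have a3 := q3 i
    simp only [Matrix.mulVec, dotProduct, Fin.sum_univ_two, MA, MB, Pi.zero_apply, Matrix.of_apply, Matrix.cons_val', Matrix.cons_val_zero,
      Matrix.cons_val_one, Matrix.cons_val_fin_one] at a0 a1 a2 a3
    constructor
    · have : 2 * I * (g i 0 * c 0) = 0 := by linear_combination I * a0 + a1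
      exact (mul_eq_zero.1 this).resolve_left (by simp)
    · have : 2 * I * (g i 0 * c 1) = 0 := by linear_combination -I * a2 - a3
      exact (mul_eq_zero.1 this).resolve_left (by simp)
  have he0 : e = 0 := by
    have hcc : c 0 ≠ 0 ∨ c 1 ≠ 0 := by
      by_contra h
      push Not at h
      exact hc (by ext i; fin_cases i <;> simp [h.1, h.2])
    ext i
    rcases hcc with h | h
    · have := (mul_eq_zero.1 (E i).1).resolve_right h
      fin_cases i <;> simpa [g] using this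
    · have := (mul_eq_zero.1 (E i).2).resolve_right h
      fin_cases i <;> simpa [g] using this
  exact hv he0

theorem trace_zero (a b : SpecialLinearGroup (Fin 2) ℂ) (h : a * b = -1 * (b * a)) :
    a.1.trace = 0 := by
  have h1 : a.1 * b.1 = -(b.1 * a.1) := by
    have := congrArg Subtype.val h
    change a.1 * b.1 = (-1) * (b.1 * a.1) at this
    rw [this]; simp
  have hb : b.1 * (b⁻¹).1 = 1 := by
    have := congrArg Subtype.val (mul_inv_cancel b)
    exact this
  have h2 : a.1 = -(b.1 * a.1 * (b⁻¹).1) := by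
    calc a.1 = a.1 * (b.1 * (b⁻¹).1) := by rw [hb, mul_one]
      _ = a.1 * b.1 * (b⁻¹).1 := by rw [mul_assoc]
      _ = _ := by rw [h1, neg_mul]
  have hb' : (b⁻¹).1 * b.1 = 1 := congrArg Subtype.val (inv_mul_cancel b)
  have h3 : a.1.trace = -a.1.trace := by
    conv_lhs => rw [h2]
    rw [Matrix.trace_neg, mul_assoc, Matrix.trace_mul_comm, mul_assoc, hb', mul_one]
  exact self_eq_neg.1 h3

theorem sq_eq (a : SpecialLinearGroup (Fin 2) ℂ) (h : a.1.trace = 0) : a.1 * a.1 = -1 := by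
  have hd : a.1 0 0 * a.1 1 1 - a.1 0 1 * a.1 1 0 = 1 := by
    have := a.2
    rwa [Matrix.det_fin_two] at this
  have ht : a.1 0 0 + a.1 1 1 = 0 := by rwa [Matrix.trace_fin_two] at h
  ext i j
  fin_cases i <;> fin_cases j <;> simp [Matrix.mul_apply, Fin.sum_univ_two]
  · linear_combination a.1 0 0 * ht - hd
  · linear_combination a.1 0 1 * ht
  · linear_combination a.1 1 0 * ht
  · linear_combination a.1 1 1 * ht - hd

theorem anticomm (φ : F ≃* F) : quat (φ (FreeGroup.of 0)) * quat (φ (FreeGroup.of 1)) =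
    -1 * (quat (φ (FreeGroup.of 1)) * quat (φ (FreeGroup.of 0))) := by
  have := Cm.all (φ (FreeGroup.of 0)) (φ (FreeGroup.of 1))
  unfold Cm at this
  rwa [dd_odd] at this

/-- The quaternion character is fixed by all automorphisms of the free group. -/
theorem quat_invariant (φ : F ≃* F) (w : F) : (quat (φ w)).1.trace = (quat w).1.trace := by
  set a := quat (φ (FreeGroup.of 0)) with ha
  set b := quat (φ (FreeGroup.of 1)) with hb
  have hab : a * b = -1 * (b * a) := anticomm φ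
  have hba : b * a = -1 * (a * b) := by rw [hab]; simp
  have hab' : a.1 * b.1 = -(b.1 * a.1) := by
    have := congrArg Subtype.val hab
    change a.1 * b.1 = (-1) * (b.1 * a.1) at this
    rw [this]; simp
  obtain ⟨g, hg, hgA, hgB⟩ := conj_exists a.1 b.1 (sq_eq a (trace_zero a b hab)) (sq_eq b (trace_zero b a hba)) hab'
  have hgd := Matrix.isUnit_iff_isUnit_det g |>.2 hg
  have key : ∀ w : F, g * (quat w).1 = (quat (φ w)).1 * g := by
    intro w
    induction w using FreeGroup.induction_on with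
    | C1 => simp
    | of i =>
      fin_cases i
      · show g * (quat (FreeGroup.of 0)).1 = _
        rw [quat_a]; exact hgA
      · show g * (quat (FreeGroup.of 1)).1 = _
        rw [quat_b]; exact hgB
    | inv_of i h =>
      have h1 : (quat (FreeGroup.of i)).1 * ((quat (FreeGroup.of i))⁻¹).1 = 1 :=
        congrArg Subtype.val (mul_inv_cancel (quat (FreeGroup.of i)))
      have h2 : ((quat (φ (FreeGroup.of i)))⁻¹).1 * (quat (φ (FreeGroup.of i))).1 = 1 :=
        congrArg Subtype.val (inv_mul_cancel (quat (φ (FreeGroup.of i))))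
      rw [map_inv, map_inv, map_inv]
      calc g * ((quat (FreeGroup.of i))⁻¹).1
          = (((quat (φ (FreeGroup.of i)))⁻¹).1 * (quat (φ (FreeGroup.of i))).1) * g *
              ((quat (FreeGroup.of i))⁻¹).1 := by rw [h2, one_mul]
        _ = ((quat (φ (FreeGroup.of i)))⁻¹).1 * (g * (quat (FreeGroup.of i)).1) *
              ((quat (FreeGroup.of i))⁻¹).1 := by rw [h]; simp only [mul_assoc]
        _ = _ := by rw [mul_assoc, mul_assoc, h1, mul_one]
    | mul x y hx hy =>
      rw [map_mul, map_mul, map_mul]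
      show g * ((quat x).1 * (quat y).1) = (quat (φ x)).1 * (quat (φ y)).1 * g
      rw [← mul_assoc, hx, mul_assoc, hy, mul_assoc]
  have h1 : (quat (φ w)).1 = g * (quat w).1 * g⁻¹ := by
    rw [key w, mul_assoc, Matrix.mul_nonsing_inv g hg, mul_one]
  rw [h1, Matrix.trace_mul_comm, ← mul_assoc, Matrix.nonsing_inv_mul g hg, one_mul]

/-- The one-dimensional representation in which all simple closed curves act by `0`. -/
noncomputable def rho (t : ℂ) : Skein t →ₐ[ℂ] Module.End ℂ ℂ :=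
  RingQuot.liftAlgHom ℂ ⟨FreeAlgebra.lift ℂ (fun _ => (0 : Module.End ℂ ℂ)), by
    intro x y h
    cases h with
    | neg v w h => simp
    | mul v w u u' h hu hu' => simp⟩

theorem rho_X (t : ℂ) (v : Prim) : rho t (X t v) = 0 := by
  simp [rho, X]

theorem rho_act (t : ℂ) (A : SpecialLinearGroup (Fin 2) ℤ) : (rho t).comp (act t A) = rho t := by
  refine RingQuot.ringQuot_ext' (S := ℂ) (s := Rel t) _ _ ?_
  refine FreeAlgebra.hom_ext (funext fun v => ?_)
  show rho t (act t A (X t v)) = rho t (X t v)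
  have : act t A (X t v) = X t (move A v) := by simp [act, X]
  rw [this, rho_X, rho_X]

theorem rho_P (t : ℂ) : rho t (P t) = (t ^ 2 + t⁻¹ ^ 2) • (1 : Module.End ℂ ℂ) := by
  simp [P, rho_X]

theorem C_odd (n : ℕ) (hn : Odd n) : (Polynomial.Chebyshev.C ℂ (n : ℤ)).coeff 0 = 0 := by
  obtain ⟨k, rfl⟩ := hn
  induction k with
  | zero => simp
  | succ k ih =>
    have h : ((2 * (k + 1) + 1 : ℕ) : ℤ) = ((2 * k + 1 : ℕ) : ℤ) + 2 := by push_cast; ring
    rw [h, Polynomial.Chebyshev.C_add_two]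
    simp only [Polynomial.coeff_sub, Polynomial.mul_coeff_zero, Polynomial.coeff_X_zero, zero_mul, zero_sub, neg_eq_zero]
    exact ih

theorem aeval_zero_odd (n : ℕ) (hn : Odd n) :
    Polynomial.aeval (0 : Module.End ℂ ℂ) (Polynomial.Chebyshev.C ℂ (n : ℤ)) = 0 := by
  rw [← Polynomial.coeff_zero_eq_aeval_zero', C_odd n hn, map_zero]

theorem irred (t : ℂ) : IsIrred (rho t) :=
  ⟨inferInstance, fun W _ => eq_bot_or_eq_top W⟩

theorem quat_trace_a : (quat (FreeGroup.of 0)).1.trace = 0 := by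
  rw [quat_a]; simp [MA, Matrix.trace_fin_two]

theorem weight (n : ℕ) (t : ℂ) (ht : t = s n ∨ t = (s n)⁻¹) :
    t ^ 2 + t⁻¹ ^ 2 = cexp (2 * Real.pi * I / n) + cexp (-(2 * Real.pi * I / n)) := by
  have h1 : s n ^ 2 = cexp (2 * Real.pi * I / n) := by
    rw [s, ← Complex.exp_nat_mul]
    congr 1
    push_cast; ring
  have h2 : (s n)⁻¹ ^ 2 = cexp (-(2 * Real.pi * I / n)) := by
    rw [inv_pow, h1, ← Complex.exp_neg]
  rcases ht with rfl | rfl
  · rw [h1, h2]
  · rw [inv_inv, h1, h2, add_comm]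

theorem value_one (A : SpecialLinearGroup (Fin 2) ℤ) (n : ℕ) (hn : Odd n) (t : ℂ)
    (ht : t = s n ∨ t = (s n)⁻¹) : TraceValue quat (2 * Real.pi * I) A n t 1 := by
  refine ⟨ℂ, inferInstance, inferInstance, inferInstance, rho t, LinearEquiv.refl ℂ ℂ, irred t, ?_, ?_, ?_, ?_, ?_⟩
  · intro ψ v _
    rw [rho_X, aeval_zero_odd n hn]
    have h := quat_invariant ψ (FreeGroup.of 0)
    rw [quat_trace_a] at h
    change _ = (-(quat (ψ (FreeGroup.of 0))).1.trace) • _
    rw [h]; simp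
  · rw [rho_P, weight n t ht]
  · intro y v
    have := congrArg (fun f : Skein t →ₐ[ℂ] Module.End ℂ ℂ => f y v) (rho_act t A)
    simpa using this
  · simp
  · simp

/-- **The equation of the volume conjecture fails at the quaternion character of the once-punctured torus with
`θ = 2 π i`.** The character `[γ]` is a point of the smooth variety `X(S) = ℂ³` fixed by all diffeomorphisms, and
`Tr γ([a,b]) = -e^θ - e^{-θ}`. For every `A` and every odd `n` there is an irreducible representation with this shadow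
and puncture weight `e^{θ/n} + e^{-θ/n}` and an intertwiner with `|Tr Λ| = 1`; so the equation does not hold with any
`L ≠ 0`. -/
theorem result :
    ∃ (γ : F →* SpecialLinearGroup (Fin 2) ℂ) (θ : ℂ),
      (γ (FreeGroup.of 0 * FreeGroup.of 1 * (FreeGroup.of 0)⁻¹ * (FreeGroup.of 1)⁻¹)).1.trace =
        -cexp θ - cexp (-θ) ∧
      (∀ (φ : F ≃* F) (w : F), (γ (φ w)).1.trace = (γ w).1.trace) ∧
      (∀ (A : SpecialLinearGroup (Fin 2) ℤ) (n : ℕ), Odd n →
        TraceValue γ θ A n (s n) 1 ∧ TraceValue γ θ A n (s n)⁻¹ 1) ∧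
      ∀ (A : SpecialLinearGroup (Fin 2) ℤ) (L : ℝ), L ≠ 0 → ¬ Conjecture γ θ A L := by
  refine ⟨quat, 2 * Real.pi * I, ?_, quat_invariant, fun A n hn =>
    ⟨value_one A n hn _ (Or.inl rfl), value_one A n hn _ (Or.inr rfl)⟩, ?_⟩
  · have h1 : quat (FreeGroup.of 0 * FreeGroup.of 1 * (FreeGroup.of 0)⁻¹ * (FreeGroup.of 1)⁻¹) = -1 := by
      have h := anticomm (MulEquiv.refl F)
      simp only [MulEquiv.refl_apply] at h
      rw [map_mul, map_mul, map_mul, map_inv, map_inv, h]
      simp only [mul_assoc]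
      rw [← mul_assoc (quat (FreeGroup.of 0)), mul_inv_cancel, one_mul, mul_inv_cancel, mul_one]
    have h2 : cexp (2 * Real.pi * I) = 1 := Complex.exp_two_pi_mul_I
    rw [h1, Complex.exp_neg, h2]
    change (-(1 : Matrix (Fin 2) (Fin 2) ℂ)).trace = _
    rw [Matrix.trace_neg, Matrix.trace_one]
    norm_num
  · intro A L hL hconj
    have hne : (atTop ⊓ 𝓟 {n : ℕ | Odd n}).NeBot :=
      Filter.frequently_mem_iff_neBot.1 Nat.frequently_odd
    have hlim : Tendsto (fun n : ℕ => Real.log (1 : ℝ) / n) (atTop ⊓ 𝓟 {n | Odd n}) (𝓝 L) := by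
      rcases hconj with h | h
      · exact h (fun _ => 1) (fun n hn => value_one A n hn _ (Or.inl rfl))
      · exact h (fun _ => 1) (fun n hn => value_one A n hn _ (Or.inr rfl))
    have h0 : Tendsto (fun n : ℕ => Real.log (1 : ℝ) / n) (atTop ⊓ 𝓟 {n | Odd n}) (𝓝 0) := by
      simp
    exact hL (tendsto_nhds_unique hlim h0)

end Pool.Agent.Results.MP_372ad9_gt.DegenerateWeights
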